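import Pool.Agent.Y678.R10.Pair

/-!
Project R10, part OFM: assembly.
-/

set_option autoImplicit false

namespace Pool.Agent.Y678.R10

open Finset
open Pool.Agent.H442R2 Pool.Agent.H442R2.TSM Pool.Agent.H442R2.TSM.TaskTA
open Pool.Agent.Y766 (Good)
open Pool.Agent.Y766.R10
open Pool.Agent.Y766.R3 (FF)

/-- OFM with the cutoff `M = p ^ ν - 1` -/
def S_OFM1 : Prop := ∀ δ : ℝ, 0 < δ → ∃ κ₁ η : ℝ, 0 < κ₁ ∧ 0 < η ∧ 10 * κ₁ ≤ η ∧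
  ∀ κ : ℝ, 0 < κ → κ ≤ κ₁ → ∀ t : ℝ, ∀ p : ℕ, p.Prime → 7 ≤ p →
  ∃ (C : ℝ) (ν₀ : ℕ), 0 < C ∧ ∀ (ν m : ℕ), ν₀ ≤ ν → 1 ≤ m → m < ν → (19 / 58 + δ) * ν ≤ m →
  ∀ χ : DirichletCharacter ℂ (p ^ ν), χ.IsPrimitive → ∀ (B : ℝ) (G : ℝ → ℂ), WG B G →
  ∀ a : ℝ, a ≤ 1 / 2 + κ → (∀ v, v ∉ Set.Icc a (a + κ) → G v = 0) →
  ∀ l1 l2 : ℕ, 1 ≤ l1 → 1 ≤ l2 → (l1 : ℝ) ≤ ((p : ℝ) ^ ν) ^ κ → (l2 : ℝ) ≤ ((p : ℝ) ^ ν) ^ κ →
  ¬ p ∣ l1 → ¬ p ∣ l2 → ∀ M : ℕ, M + 1 = p ^ ν →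
    ∑ h ∈ (Icc 1 (M / p ^ m)).filter (fun h => ¬ p ∣ h),
      ‖∑ n ∈ (Icc 1 M).filter (fun n => l2 ∣ n ∧ l1 ∣ n + p ^ m * h),
        FF χ ((p : ℤ) ^ m * (h : ℤ)) (n : ℤ) * (ww ((p : ℝ) ^ ν) t G l1 (n + p ^ m * h) *
          (starRingEnd ℂ) (ww ((p : ℝ) ^ ν) t G l2 n))‖ ≤
      C * B ^ 2 * ((p : ℝ) ^ ν) ^ (-η)

lemma norm_scale {N : ℝ} (hN : 0 < N) (t : ℝ) :
    ‖((N : ℝ) : ℂ) ^ (-(1 / 2 + (t : ℂ) * Complex.I))‖ = (√N)⁻¹ := by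
  rw [Complex.norm_cpow_eq_rpow_re_of_pos hN]
  have e : (-(1 / 2 + (t : ℂ) * Complex.I)).re = -(1 / 2 : ℝ) := by
    simp
  rw [e, Real.rpow_neg hN.le, Real.sqrt_eq_rpow]

/-- the number of dyadic pieces -/
lemma numb {q η₁ : ℝ} {Q : ℕ} (hQ : (Q : ℝ) = q) (hq : 7 ≤ q) (hη : 0 < η₁) (hη1 : η₁ ≤ 1 / 100) :
    ((Nat.log 2 Q + 2 + 1 : ℕ) : ℝ) ^ 2 ≤ (80 / η₁) ^ 2 * q ^ (η₁ / 4) := by
  have hq0 : 0 < q := by linarith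
  have hQ0 : Q ≠ 0 := by
    rintro rfl
    rw [Nat.cast_zero] at hQ
    linarith
  have h1 : (2 : ℝ) ^ (Nat.log 2 Q) ≤ q := by
    rw [← hQ]
    exact_mod_cast Nat.pow_log_le_self 2 hQ0
  have hlog2 : (1 / 2 : ℝ) < Real.log 2 := by
    have := Real.log_two_gt_d9
    linarith
  have h2 : (Nat.log 2 Q : ℝ) * Real.log 2 ≤ Real.log q := by
    have := Real.log_le_log (by positivity) h1
    rwa [Real.log_pow] at this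
  have h3 : 1 ≤ Real.log q := by
    rw [Real.le_log_iff_exp_le hq0]
    have := Real.exp_one_lt_d9
    linarith
  have h4 : (Nat.log 2 Q : ℝ) ≤ 2 * Real.log q := by
    have h0 : (0 : ℝ) ≤ (Nat.log 2 Q : ℝ) := Nat.cast_nonneg _
    nlinarith
  have h5 : ((Nat.log 2 Q + 2 + 1 : ℕ) : ℝ) ≤ 5 * Real.log q := by
    push_cast
    linarith
  have h6 : Real.log q ≤ q ^ (η₁ / 8) / (η₁ / 8) := Real.log_le_rpow_div hq0.le (by positivity)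
  have h7 : ((Nat.log 2 Q + 2 + 1 : ℕ) : ℝ) ≤ 80 / η₁ * q ^ (η₁ / 8) := by
    have h8 : q ^ (η₁ / 8) / (η₁ / 8) = 8 / η₁ * q ^ (η₁ / 8) := by
      field_simp
    rw [h8] at h6
    have h9 : 0 < 8 / η₁ * q ^ (η₁ / 8) := by positivity
    have h10 : 80 / η₁ * q ^ (η₁ / 8) = 10 * (8 / η₁ * q ^ (η₁ / 8)) := by ring
    rw [h10]
    linarith
  have h8 : ((Nat.log 2 Q + 2 + 1 : ℕ) : ℝ) ^ 2 ≤ (80 / η₁ * q ^ (η₁ / 8)) ^ 2 :=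
    pow_le_pow_left₀ (Nat.cast_nonneg _) h7 2
  refine h8.trans (le_of_eq ?_)
  rw [mul_pow, ← Real.rpow_natCast (q ^ (η₁ / 8)), ← Real.rpow_mul hq0.le]
  congr 2
  push_cast
  ring

theorem ofm1 (hO : S_OFF) : S_OFM1 := by
  intro δ hδ
  obtain ⟨η₀, hη₀, hO⟩ := hO δ hδ
  obtain ⟨η₁, hη₁⟩ : ∃ η₁, η₁ = min η₀ (1 / 100) := ⟨_, rfl⟩
  have h1 : 0 < η₁ := by rw [hη₁]; exact lt_min hη₀ (by norm_num)
  have h2 : η₁ ≤ 1 / 100 := by rw [hη₁]; exact min_le_right _ _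
  have h3 : η₁ ≤ η₀ := by rw [hη₁]; exact min_le_left _ _
  refine ⟨η₁ / 100, η₁ / 4, by positivity, by positivity, by linarith, ?_⟩
  intro κ hκ0 hκ t p hp hp7
  obtain ⟨C₀, ν₀, hC₀, hO⟩ := hO p hp hp7
  obtain ⟨Ct, hCt, hgood⟩ := Pool.Agent.Y766.good_EE tst_ps
  obtain ⟨A, hA⟩ : ∃ A : ℝ, A = 5 * (Ct * (1 + |t|) ^ 2) := ⟨_, rfl⟩
  have hA0 : 0 < A := by rw [hA]; positivity
  refine ⟨(80 / η₁) ^ 2 * ((2 * C₀ + 40) * A ^ 2), ν₀, by positivity, ?_⟩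
  intro ν m hν hm hmν hmδ χ hχ B G hG a ha hGs l1 l2 hl1 hl2 hl1q hl2q hpl1 hpl2 M hM
  have hB : 0 ≤ B := (norm_nonneg _).trans (hG.b0 0)
  have hp0 : (0 : ℝ) < p := by exact_mod_cast hp.pos
  have hp1 : (1 : ℝ) < p := by
    have : (7 : ℝ) ≤ p := by exact_mod_cast hp7
    linarith
  obtain ⟨q, hq⟩ : ∃ q : ℝ, q = (p : ℝ) ^ ν := ⟨_, rfl⟩
  have hq7 : 7 ≤ q := by
    have h7 : (7 : ℝ) ≤ p := by exact_mod_cast hp7
    have h1 : (p : ℝ) ^ 1 ≤ (p : ℝ) ^ ν := pow_le_pow_right₀ hp1.le (by omega)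
    rw [pow_one] at h1
    rw [hq]
    linarith
  have hq1 : 1 < q := by linarith
  have hq0 : 0 < q := by linarith
  have hL : 1 ≤ Real.log q := by
    rw [Real.le_log_iff_exp_le hq0]
    have := Real.exp_one_lt_d9
    linarith
  have hQ : ((p ^ ν : ℕ) : ℝ) = q := by rw [hq]; push_cast; rfl
  obtain ⟨I, hI⟩ : ∃ I, I = Nat.log 2 (p ^ ν) + 2 := ⟨_, rfl⟩
  have hI2 : 2 * (p ^ ν) ≤ 2 ^ I := by
    have h5 := Nat.lt_pow_succ_log_self (b := 2) (by norm_num) (p ^ ν)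
    rw [hI, pow_succ, pow_succ]
    rw [pow_succ] at h5
    omega
  -- the hypothesis for the smaller exponent
  have hoff : ∀ (E : ℕ) (c : ℤ → ℤ), 1 ≤ E → ¬ p ∣ E → (∀ l, 0 ≤ c l ∧ c l < E) →
      ∀ (g1 g2 : ℝ → ℂ) (B1 B2 : ℝ), Good B1 g1 → Good B2 g2 →
      (∀ x, x ∉ Set.Icc (6 / 5 : ℝ) 3 → g2 x = 0) →
      ∀ N1 N2 : ℝ, 0 < N1 → 5 * E ≤ N2 → N2 ≤ 4 * N1 → N1 ≤ ((p : ℝ) ^ ν) ^ (1 / 2 + η₁) →
      ∀ S ⊆ (Ico (1 : ℤ) (1 + (⌊4 * N1⌋₊ / p ^ m : ℕ))).filter (fun l => ¬ (p : ℤ) ∣ l),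
        ∑ l ∈ S, ‖∑ x ∈ Icc 1 ⌊4 * (N2 / E)⌋₊, FF χ ((p : ℤ) ^ m * l) (c l + E * x) *
          (g1 (((c l + E * x + (p : ℤ) ^ m * l : ℤ) : ℝ) / N1) *
            (starRingEnd ℂ) (g2 (((c l + E * x : ℤ) : ℝ) / N2)))‖ ≤
          C₀ * (B1 * B2) * N1 * ((p : ℝ) ^ ν) ^ (-η₁) := by
    intro E c hE hpE hc g1 g2 B1 B2 hg1 hg2 hg2s N1 N2 hN1 hEN hN2 hN1q S hS
    have hB1 : 0 ≤ B1 := (norm_nonneg _).trans (hg1.b0 0)
    have hB2 : 0 ≤ B2 := (norm_nonneg _).trans (hg2.b0 0)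
    rw [← hq] at hN1q ⊢
    have h5 := hO ν m hν hm hmν hmδ χ hχ E c hE hpE hc g1 g2 B1 B2 hg1 hg2 hg2s N1 N2 hN1 hEN hN2
      (by
        rw [← hq]
        exact hN1q.trans (Real.rpow_le_rpow_of_exponent_le hq1.le (by linarith))) S hS
    rw [← hq] at h5
    refine h5.trans ?_
    apply mul_le_mul_of_nonneg_left _ (by positivity)
    exact Real.rpow_le_rpow_of_exponent_le hq1.le (by linarith)
  have hm' : (19 / 58 : ℝ) * ν ≤ m := by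
    have : 0 ≤ δ * ν := by positivity
    linarith
  -- the weights
  have hgw : ∀ (l : ℕ) (N : ℝ), Good (A * B) (gw q t G l N) := by
    intro l N
    have h5 := good_mul (c := Real.log N - Real.log l) (hgood t) hG hL
    rw [← hA] at h5
    exact h5
  have hgws : ∀ (l : ℕ) (N x : ℝ), x ∉ Set.Icc (6 / 5 : ℝ) 3 → gw q t G l N x = 0 := by
    intro l N x hx
    unfold gw
    rw [ps_supp hx, zero_mul, zero_mul]
  -- the pair bound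
  have hpair : ∀ i j : ℕ, ∑ h ∈ (Icc 1 (M / p ^ m)).filter (fun h => ¬ p ∣ h),
      ‖∑ n ∈ (Icc 1 M).filter (fun n => l2 ∣ n ∧ l1 ∣ n + p ^ m * h),
        FF χ ((p : ℤ) ^ m * (h : ℤ)) (n : ℤ) *
          (gw q t G l1 (2 ^ i / 2) (((n + p ^ m * h : ℕ) : ℝ) / (2 ^ i / 2)) *
          (starRingEnd ℂ) (gw q t G l2 (2 ^ j / 2) ((n : ℝ) / (2 ^ j / 2))))‖ ≤
      (2 * C₀ + 40) * (A * B) ^ 2 * (√(2 ^ i / 2) * √(2 ^ j / 2)) * q ^ (-(η₁ / 2)) := by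
    intro i j
    have hi : (1 : ℝ) ≤ 2 ^ i := one_le_pow₀ (by norm_num)
    have hj : (1 : ℝ) ≤ 2 ^ j := one_le_pow₀ (by norm_num)
    have h5 := pair_bound hp hp7 hmν h1 h2 hκ0 hκ hm' χ hC₀ hoff ha hl1 hl2 hl1q hl2q hpl1 hpl2 hM
      (hgw l1 (2 ^ i / 2)) (hgw l2 (2 ^ j / 2)) (hgws l2 (2 ^ j / 2)) (N1 := 2 ^ i / 2)
      (N2 := 2 ^ j / 2) (by linarith) (by linarith)
      (fun k hk hne => by
        rw [← hq]
        exact gw_supp hq1 hGs hl1 (by linarith) hk hne)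
      (fun k hk hne => by
        rw [← hq]
        exact gw_supp hq1 hGs hl2 (by linarith) hk hne)
    rw [← hq] at h5
    exact h5
  rw [← hq]
  -- expansion
  obtain ⟨s, hs⟩ : ∃ s : ℂ, s = -(1 / 2 + (t : ℂ) * Complex.I) := ⟨_, rfl⟩
  have hexp : ∀ h ∈ (Icc 1 (M / p ^ m)).filter (fun h => ¬ p ∣ h),
      ‖∑ n ∈ (Icc 1 M).filter (fun n => l2 ∣ n ∧ l1 ∣ n + p ^ m * h),
        FF χ ((p : ℤ) ^ m * (h : ℤ)) (n : ℤ) * (ww q t G l1 (n + p ^ m * h) *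
          (starRingEnd ℂ) (ww q t G l2 n))‖ ≤
      ∑ i ∈ range (I + 1), ∑ j ∈ range (I + 1), ((√(2 ^ i / 2))⁻¹ * (√(2 ^ j / 2))⁻¹) *
        ‖∑ n ∈ (Icc 1 M).filter (fun n => l2 ∣ n ∧ l1 ∣ n + p ^ m * h),
        FF χ ((p : ℤ) ^ m * (h : ℤ)) (n : ℤ) *
          (gw q t G l1 (2 ^ i / 2) (((n + p ^ m * h : ℕ) : ℝ) / (2 ^ i / 2)) *
          (starRingEnd ℂ) (gw q t G l2 (2 ^ j / 2) ((n : ℝ) / (2 ^ j / 2))))‖ := by
    intro h hh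
    rw [mem_filter, mem_Icc] at hh
    have hhM : p ^ m * h ≤ M := by
      have := (Nat.le_div_iff_mul_le (Nat.one_le_pow _ _ hp.pos)).1 hh.1.2
      rw [mul_comm]
      exact this
    have e1 : ∑ n ∈ (Icc 1 M).filter (fun n => l2 ∣ n ∧ l1 ∣ n + p ^ m * h),
        FF χ ((p : ℤ) ^ m * (h : ℤ)) (n : ℤ) * (ww q t G l1 (n + p ^ m * h) *
          (starRingEnd ℂ) (ww q t G l2 n)) =
        ∑ i ∈ range (I + 1), ∑ j ∈ range (I + 1),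
          ((((2 : ℝ) ^ i / 2 : ℝ) : ℂ) ^ s * (starRingEnd ℂ) ((((2 : ℝ) ^ j / 2 : ℝ) : ℂ) ^ s)) *
        ∑ n ∈ (Icc 1 M).filter (fun n => l2 ∣ n ∧ l1 ∣ n + p ^ m * h),
        FF χ ((p : ℤ) ^ m * (h : ℤ)) (n : ℤ) *
          (gw q t G l1 (2 ^ i / 2) (((n + p ^ m * h : ℕ) : ℝ) / (2 ^ i / 2)) *
          (starRingEnd ℂ) (gw q t G l2 (2 ^ j / 2) ((n : ℝ) / (2 ^ j / 2)))) := by
      have e2 : ∀ n ∈ (Icc 1 M).filter (fun n => l2 ∣ n ∧ l1 ∣ n + p ^ m * h),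
          FF χ ((p : ℤ) ^ m * (h : ℤ)) (n : ℤ) * (ww q t G l1 (n + p ^ m * h) *
          (starRingEnd ℂ) (ww q t G l2 n)) =
          ∑ i ∈ range (I + 1), ∑ j ∈ range (I + 1),
          ((((2 : ℝ) ^ i / 2 : ℝ) : ℂ) ^ s * (starRingEnd ℂ) ((((2 : ℝ) ^ j / 2 : ℝ) : ℂ) ^ s)) *
          (FF χ ((p : ℤ) ^ m * (h : ℤ)) (n : ℤ) *
          (gw q t G l1 (2 ^ i / 2) (((n + p ^ m * h : ℕ) : ℝ) / (2 ^ i / 2)) *
          (starRingEnd ℂ) (gw q t G l2 (2 ^ j / 2) ((n : ℝ) / (2 ^ j / 2))))) := by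
        intro n hn
        rw [mem_filter, mem_Icc] at hn
        have hn1 : 1 ≤ n := hn.1.1
        have b1 : ((n + p ^ m * h : ℕ) : ℝ) ≤ 6 / 5 * 2 ^ I := by
          have h5 : n + p ^ m * h ≤ 2 ^ I := by omega
          have h6 : ((n + p ^ m * h : ℕ) : ℝ) ≤ (2 : ℝ) ^ I := by exact_mod_cast h5
          have h7 : (0 : ℝ) < 2 ^ I := by positivity
          linarith
        have b2 : (n : ℝ) ≤ 6 / 5 * 2 ^ I := by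
          have h5 : n ≤ 2 ^ I := by omega
          have h6 : (n : ℝ) ≤ (2 : ℝ) ^ I := by exact_mod_cast h5
          have h7 : (0 : ℝ) < 2 ^ I := by positivity
          linarith
        rw [ww_eq q t G l1 (by omega : 1 ≤ n + p ^ m * h) b1, ww_eq q t G l2 hn1 b2, map_sum,
          sum_mul_sum, mul_sum, ← hs]
        refine sum_congr rfl fun i _ => ?_
        rw [mul_sum]
        refine sum_congr rfl fun j _ => ?_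
        rw [map_mul]
        ring
      rw [sum_congr rfl e2, sum_comm]
      refine sum_congr rfl fun i _ => ?_
      rw [sum_comm]
      refine sum_congr rfl fun j _ => ?_
      rw [mul_sum]
    rw [e1]
    refine (norm_sum_le _ _).trans (sum_le_sum fun i _ => ?_)
    refine (norm_sum_le _ _).trans (sum_le_sum fun j _ => ?_)
    rw [norm_mul, norm_mul, RCLike.norm_conj, hs, norm_scale (by positivity) t,
      norm_scale (by positivity) t]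
  refine (sum_le_sum hexp).trans ?_
  rw [sum_comm]
  have hbd : ∀ i ∈ range (I + 1), ∑ h ∈ (Icc 1 (M / p ^ m)).filter (fun h => ¬ p ∣ h),
      ∑ j ∈ range (I + 1), ((√(2 ^ i / 2))⁻¹ * (√(2 ^ j / 2))⁻¹) *
        ‖∑ n ∈ (Icc 1 M).filter (fun n => l2 ∣ n ∧ l1 ∣ n + p ^ m * h),
        FF χ ((p : ℤ) ^ m * (h : ℤ)) (n : ℤ) *
          (gw q t G l1 (2 ^ i / 2) (((n + p ^ m * h : ℕ) : ℝ) / (2 ^ i / 2)) *
          (starRingEnd ℂ) (gw q t G l2 (2 ^ j / 2) ((n : ℝ) / (2 ^ j / 2))))‖ ≤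
      (I + 1 : ℕ) * ((2 * C₀ + 40) * (A * B) ^ 2 * q ^ (-(η₁ / 2))) := by
    intro i _
    rw [sum_comm]
    have h5 : ∀ j ∈ range (I + 1), ∑ h ∈ (Icc 1 (M / p ^ m)).filter (fun h => ¬ p ∣ h),
        ((√(2 ^ i / 2))⁻¹ * (√(2 ^ j / 2))⁻¹) *
        ‖∑ n ∈ (Icc 1 M).filter (fun n => l2 ∣ n ∧ l1 ∣ n + p ^ m * h),
        FF χ ((p : ℤ) ^ m * (h : ℤ)) (n : ℤ) *
          (gw q t G l1 (2 ^ i / 2) (((n + p ^ m * h : ℕ) : ℝ) / (2 ^ i / 2)) *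
          (starRingEnd ℂ) (gw q t G l2 (2 ^ j / 2) ((n : ℝ) / (2 ^ j / 2))))‖ ≤
        (2 * C₀ + 40) * (A * B) ^ 2 * q ^ (-(η₁ / 2)) := by
      intro j _
      rw [← mul_sum]
      have hi : 0 < √((2 : ℝ) ^ i / 2) := Real.sqrt_pos.2 (by positivity)
      have hj : 0 < √((2 : ℝ) ^ j / 2) := Real.sqrt_pos.2 (by positivity)
      refine (mul_le_mul_of_nonneg_left (hpair i j) (by positivity)).trans (le_of_eq ?_)
      field_simp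
    refine (sum_le_sum h5).trans (le_of_eq ?_)
    rw [sum_const, card_range, nsmul_eq_mul]
  refine (sum_le_sum hbd).trans ?_
  rw [sum_const, card_range, nsmul_eq_mul]
  have hnum := numb hQ hq7 h1 h2
  rw [← hI] at hnum
  have e3 : ((I + 1 : ℕ) : ℝ) * (((I + 1 : ℕ) : ℝ) * ((2 * C₀ + 40) * (A * B) ^ 2 *
      q ^ (-(η₁ / 2)))) = ((I + 1 : ℕ) : ℝ) ^ 2 * ((2 * C₀ + 40) * (A * B) ^ 2 *
      q ^ (-(η₁ / 2))) := by ring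
  rw [e3]
  refine (mul_le_mul_of_nonneg_right hnum (by positivity)).trans (le_of_eq ?_)
  have e4 : q ^ (-(η₁ / 4)) = q ^ (η₁ / 4) * q ^ (-(η₁ / 2)) := by
    rw [← Real.rpow_add hq0]
    congr 1
    ring
  rw [e4]
  ring

theorem ofm (hO : S_OFF) : S_OFM := ofm1 hO

end Pool.Agent.Y678.R10
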