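import Pool.Agent.Y678.R10.Pr

/-!
Project R10, part OFM: the bound for a pair of dyadic weights.
-/

set_option autoImplicit false

namespace Pool.Agent.Y678.R10

open Finset
open Pool.Agent.Y766 (Good)
open Pool.Agent.Y766.R3 (FF)

theorem pair_bound {p ν m : ℕ} (hp : p.Prime) (hp7 : 7 ≤ p) (hmν : m < ν)
    {η₁ κ : ℝ} (hη0 : 0 < η₁) (hη1 : η₁ ≤ 1 / 100) (hκ0 : 0 < κ) (hκ : κ ≤ η₁ / 100)
    (hm' : (19 / 58 : ℝ) * ν ≤ m) (χ : DirichletCharacter ℂ (p ^ ν)) {C₀ : ℝ} (hC₀ : 0 < C₀)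
    (hoff : ∀ (E : ℕ) (c : ℤ → ℤ), 1 ≤ E → ¬ p ∣ E → (∀ l, 0 ≤ c l ∧ c l < E) →
      ∀ (g1 g2 : ℝ → ℂ) (B1 B2 : ℝ), Good B1 g1 → Good B2 g2 →
      (∀ x, x ∉ Set.Icc (6 / 5 : ℝ) 3 → g2 x = 0) →
      ∀ N1 N2 : ℝ, 0 < N1 → 5 * E ≤ N2 → N2 ≤ 4 * N1 → N1 ≤ ((p : ℝ) ^ ν) ^ (1 / 2 + η₁) →
      ∀ S ⊆ (Ico (1 : ℤ) (1 + (⌊4 * N1⌋₊ / p ^ m : ℕ))).filter (fun l => ¬ (p : ℤ) ∣ l),
        ∑ l ∈ S, ‖∑ x ∈ Icc 1 ⌊4 * (N2 / E)⌋₊, FF χ ((p : ℤ) ^ m * l) (c l + E * x) *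
          (g1 (((c l + E * x + (p : ℤ) ^ m * l : ℤ) : ℝ) / N1) *
            (starRingEnd ℂ) (g2 (((c l + E * x : ℤ) : ℝ) / N2)))‖ ≤
          C₀ * (B1 * B2) * N1 * ((p : ℝ) ^ ν) ^ (-η₁))
    {a : ℝ} (ha : a ≤ 1 / 2 + κ) {l1 l2 : ℕ} (hl1 : 1 ≤ l1) (hl2 : 1 ≤ l2)
    (hl1q : (l1 : ℝ) ≤ ((p : ℝ) ^ ν) ^ κ) (hl2q : (l2 : ℝ) ≤ ((p : ℝ) ^ ν) ^ κ)
    (hpl1 : ¬ p ∣ l1) (hpl2 : ¬ p ∣ l2) {M : ℕ} (hM : M + 1 = p ^ ν)
    {g1 g2 : ℝ → ℂ} {Bg : ℝ} (hg1 : Good Bg g1) (hg2 : Good Bg g2)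
    (hg2s : ∀ x, x ∉ Set.Icc (6 / 5 : ℝ) 3 → g2 x = 0) {N1 N2 : ℝ} (hN1 : 1 / 2 ≤ N1)
    (hN2 : 1 / 2 ≤ N2)
    (hs1 : ∀ k : ℝ, 0 < k → g1 (k / N1) ≠ 0 → 6 / 5 * N1 ≤ k ∧ k ≤ 3 * N1 ∧
      l1 * ((p : ℝ) ^ ν) ^ a ≤ k ∧ k ≤ l1 * ((p : ℝ) ^ ν) ^ (a + κ))
    (hs2 : ∀ k : ℝ, 0 < k → g2 (k / N2) ≠ 0 → 6 / 5 * N2 ≤ k ∧ k ≤ 3 * N2 ∧
      l2 * ((p : ℝ) ^ ν) ^ a ≤ k ∧ k ≤ l2 * ((p : ℝ) ^ ν) ^ (a + κ)) :
    ∑ h ∈ (Icc 1 (M / p ^ m)).filter (fun h => ¬ p ∣ h),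
      ‖∑ n ∈ (Icc 1 M).filter (fun n => l2 ∣ n ∧ l1 ∣ n + p ^ m * h),
        FF χ ((p : ℤ) ^ m * (h : ℤ)) (n : ℤ) * (g1 (((n + p ^ m * h : ℕ) : ℝ) / N1) *
          (starRingEnd ℂ) (g2 ((n : ℝ) / N2)))‖ ≤
      (2 * C₀ + 40) * Bg ^ 2 * (√N1 * √N2) * ((p : ℝ) ^ ν) ^ (-(η₁ / 2)) := by
  obtain ⟨q, hq⟩ : ∃ q : ℝ, q = (p : ℝ) ^ ν := ⟨_, rfl⟩
  rw [← hq] at hoff hl1q hl2q hs1 hs2 ⊢
  have hBg : 0 ≤ Bg := (norm_nonneg _).trans (hg1.b0 0)
  have hp0 : (0 : ℝ) < p := by exact_mod_cast hp.pos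
  have hp1 : (1 : ℝ) < p := by
    have : (7 : ℝ) ≤ p := by exact_mod_cast hp7
    linarith
  have hq7 : 7 ≤ q := by
    have h7 : (7 : ℝ) ≤ p := by exact_mod_cast hp7
    have h1 : (p : ℝ) ^ 1 ≤ (p : ℝ) ^ ν := pow_le_pow_right₀ hp1.le (by omega)
    rw [pow_one] at h1
    rw [hq]
    linarith
  have hq1 : 1 < q := by linarith
  have hq0 : 0 < q := by linarith
  have hN1' : 0 < N1 := by linarith
  have hN2' : 0 < N2 := by linarith
  have hsN1 : 0 < √N1 := Real.sqrt_pos.2 hN1'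
  have hsN2 : 0 < √N2 := Real.sqrt_pos.2 hN2'
  have hPm : 1 ≤ p ^ m := Nat.one_le_pow _ _ hp.pos
  have hPm0 : (0 : ℝ) < (p : ℝ) ^ m := by positivity
  -- exponents
  have hκ1 : κ ≤ 1 / 10000 := by linarith
  have qmono : ∀ x y : ℝ, x ≤ y → q ^ x ≤ q ^ y := fun x y h =>
    Real.rpow_le_rpow_of_exponent_le hq1.le h
  have qadd : ∀ x y : ℝ, q ^ x * q ^ y = q ^ (x + y) := fun x y => (Real.rpow_add hq0 x y).symm
  have qpos : ∀ x : ℝ, 0 < q ^ x := fun x => Real.rpow_pos_of_pos hq0 x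
  -- the inner sums
  obtain ⟨T, hT⟩ : ∃ T : ℕ → ℂ, T = fun h =>
      ∑ n ∈ (Icc 1 M).filter (fun n => l2 ∣ n ∧ l1 ∣ n + p ^ m * h),
        FF χ ((p : ℤ) ^ m * (h : ℤ)) (n : ℤ) * (g1 (((n + p ^ m * h : ℕ) : ℝ) / N1) *
          (starRingEnd ℂ) (g2 ((n : ℝ) / N2))) := ⟨_, rfl⟩
  have hgoal : ∑ h ∈ (Icc 1 (M / p ^ m)).filter (fun h => ¬ p ∣ h), ‖T h‖ ≤
      (2 * C₀ + 40) * Bg ^ 2 * (√N1 * √N2) * q ^ (-(η₁ / 2)) := by
    have hRHS : 0 ≤ (2 * C₀ + 40) * Bg ^ 2 * (√N1 * √N2) * q ^ (-(η₁ / 2)) := by positivity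
    -- nonzero terms
    have hterm : ∀ h : ℕ, T h ≠ 0 → ∃ n : ℕ, 1 ≤ n ∧ (l2 ∣ n ∧ l1 ∣ n + p ^ m * h) ∧
        g1 (((n + p ^ m * h : ℕ) : ℝ) / N1) ≠ 0 ∧ g2 ((n : ℝ) / N2) ≠ 0 := by
      intro h hh
      rw [hT] at hh
      obtain ⟨n, hn, hne⟩ := Finset.exists_ne_zero_of_sum_ne_zero hh
      rw [mem_filter, mem_Icc] at hn
      refine ⟨n, hn.1.1, hn.2, fun h' => hne ?_, fun h' => hne ?_⟩
      · rw [h', zero_mul, mul_zero]
      · rw [h', map_zero, mul_zero, mul_zero]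
    -- the size of `n`
    have hnM : ∀ k : ℕ, 1 ≤ k → g2 ((k : ℝ) / N2) ≠ 0 → k ≤ M := by
      intro k hk hne
      have hk0 : (0 : ℝ) < k := by exact_mod_cast hk
      obtain ⟨-, -, -, h4⟩ := hs2 k hk0 hne
      have h5 : (l2 : ℝ) * q ^ (a + κ) ≤ q ^ κ * q ^ (a + κ) :=
        mul_le_mul_of_nonneg_right hl2q (qpos _).le
      rw [qadd] at h5
      have h6 : q ^ (κ + (a + κ)) < q ^ (1 : ℝ) :=
        Real.rpow_lt_rpow_of_exponent_lt hq1 (by linarith)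
      rw [Real.rpow_one] at h6
      have h7 : (k : ℝ) < q := by linarith
      rw [hq] at h7
      have h8 : k < p ^ ν := by exact_mod_cast h7
      omega
    -- the size of `h`
    have hhN : ∀ h : ℕ, T h ≠ 0 → (p : ℝ) ^ m * h ≤ 3 * N1 := by
      intro h hh
      obtain ⟨n, hn1, -, hg, -⟩ := hterm h hh
      have hn0 : (0 : ℝ) < n := by exact_mod_cast hn1
      have hk0 : (0 : ℝ) < ((n + p ^ m * h : ℕ) : ℝ) := by
        push_cast
        positivity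
      obtain ⟨-, h3, -, -⟩ := hs1 _ hk0 hg
      push_cast at h3
      linarith
    by_cases hall : ∀ h ∈ (Icc 1 (M / p ^ m)).filter (fun h => ¬ p ∣ h), T h = 0
    · rw [sum_eq_zero fun h hh => by rw [hall h hh, norm_zero]]
      exact hRHS
    push Not at hall
    obtain ⟨h₀, hh₀, hT₀⟩ := hall
    obtain ⟨n₀, hn₀1, -, hg1₀, hg2₀⟩ := hterm h₀ hT₀
    have hn₀0 : (0 : ℝ) < n₀ := by exact_mod_cast hn₀1
    have hk₀0 : (0 : ℝ) < ((n₀ + p ^ m * h₀ : ℕ) : ℝ) := by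
      push_cast
      positivity
    obtain ⟨a1, a2, a3, a4⟩ := hs1 _ hk₀0 hg1₀
    obtain ⟨b1, b2, b3, b4⟩ := hs2 _ hn₀0 hg2₀
    have hkn : (n₀ : ℝ) ≤ ((n₀ + p ^ m * h₀ : ℕ) : ℝ) := by
      push_cast
      have : 0 ≤ (p : ℝ) ^ m * h₀ := by positivity
      linarith
    have f1 : N2 ≤ 4 * N1 := by linarith
    have c1 : (l1 : ℝ) * q ^ (a + κ) ≤ q ^ κ * q ^ (a + κ) :=
      mul_le_mul_of_nonneg_right hl1q (qpos _).le
    rw [qadd] at c1
    have f2 : N1 ≤ 4 * q ^ (2 * κ) * N2 := by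
      have c2 : q ^ (κ + (a + κ)) = q ^ (2 * κ) * q ^ a := by
        rw [qadd]
        congr 1
        ring
      have c3 : q ^ a ≤ (l2 : ℝ) * q ^ a := by
        have : (1 : ℝ) ≤ l2 := by exact_mod_cast hl2
        nlinarith [qpos a]
      have c4 : q ^ (2 * κ) * q ^ a ≤ q ^ (2 * κ) * (3 * N2) :=
        mul_le_mul_of_nonneg_left (by linarith) (qpos _).le
      have c5 : 0 < q ^ (2 * κ) * N2 := by positivity
      nlinarith
    have f3 : N1 ≤ q ^ (1 / 2 + 3 * κ) := by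
      have c2 : q ^ (κ + (a + κ)) ≤ q ^ (1 / 2 + 3 * κ) := qmono _ _ (by linarith)
      linarith
    have hEle : ((Nat.lcm l1 l2 : ℕ) : ℝ) ≤ q ^ (2 * κ) := by
      have h1 : Nat.lcm l1 l2 ≤ l1 * l2 := Nat.le_of_dvd (Nat.mul_pos hl1 hl2) (Nat.lcm_dvd
        (Dvd.intro _ rfl) (Dvd.intro_left _ rfl))
      have h2 : ((Nat.lcm l1 l2 : ℕ) : ℝ) ≤ (l1 : ℝ) * l2 := by exact_mod_cast h1
      have h3 : (l1 : ℝ) * l2 ≤ q ^ κ * q ^ κ := mul_le_mul hl1q hl2q (by positivity) (qpos _).le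
      rw [qadd] at h3
      have h4 : κ + κ = 2 * κ := by ring
      rw [h4] at h3
      linarith
    rcases lt_or_ge N2 (5 * ((Nat.lcm l1 l2 : ℕ) : ℝ)) with hcase | hcase
    · -- the short case
      have hTle : ∀ h, ‖T h‖ ≤ 3 * N2 * Bg ^ 2 := by
        intro h
        rw [hT]
        simp only
        refine (norm_sum_le _ _).trans ?_
        have h1 : ∀ n ∈ (Icc 1 M).filter (fun n => l2 ∣ n ∧ l1 ∣ n + p ^ m * h),
            ‖FF χ ((p : ℤ) ^ m * (h : ℤ)) (n : ℤ) * (g1 (((n + p ^ m * h : ℕ) : ℝ) / N1) *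
              (starRingEnd ℂ) (g2 ((n : ℝ) / N2)))‖ ≤
            if n ∈ Icc 1 ⌊3 * N2⌋₊ then Bg ^ 2 else 0 := by
          intro n hn
          rw [mem_filter, mem_Icc] at hn
          have hn0 : (0 : ℝ) < n := by exact_mod_cast hn.1.1
          split_ifs with hif
          · rw [norm_mul, norm_mul, RCLike.norm_conj]
            have e1 := FF_le χ ((p : ℤ) ^ m * (h : ℤ)) (n : ℤ)
            have e2 := hg1.b0 (((n + p ^ m * h : ℕ) : ℝ) / N1)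
            have e3 := hg2.b0 ((n : ℝ) / N2)
            have e4 := mul_le_mul e2 e3 (norm_nonneg _) hBg
            have e5 := mul_le_mul e1 e4 (by positivity) (by norm_num)
            refine e5.trans (le_of_eq ?_)
            ring
          · have hz : g2 ((n : ℝ) / N2) = 0 := by
              by_contra hne
              obtain ⟨-, h3, -, -⟩ := hs2 n hn0 hne
              exact hif (mem_Icc.2 ⟨hn.1.1, Nat.le_floor h3⟩)
            rw [hz, map_zero, mul_zero, mul_zero, norm_zero]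
        refine (sum_le_sum h1).trans ?_
        have h2 : ∑ n ∈ (Icc 1 M).filter (fun n => l2 ∣ n ∧ l1 ∣ n + p ^ m * h),
            (if n ∈ Icc 1 ⌊3 * N2⌋₊ then Bg ^ 2 else 0) ≤
            ∑ n ∈ Icc 1 ⌊3 * N2⌋₊, Bg ^ 2 := by
          rw [← sum_filter]
          refine sum_le_sum_of_subset_of_nonneg ?_ (fun _ _ _ => by positivity)
          intro n hn
          exact (mem_filter.1 hn).2
        refine h2.trans ?_
        rw [sum_const, Nat.card_Icc, nsmul_eq_mul, Nat.add_sub_cancel]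
        exact mul_le_mul_of_nonneg_right (Nat.floor_le (by positivity)) (by positivity)
      have hsum : ∑ h ∈ (Icc 1 (M / p ^ m)).filter (fun h => ¬ p ∣ h), ‖T h‖ ≤
          (3 * N1 / (p : ℝ) ^ m) * (3 * N2 * Bg ^ 2) := by
        have h1 : ∀ h ∈ (Icc 1 (M / p ^ m)).filter (fun h => ¬ p ∣ h),
            ‖T h‖ ≤ if h ∈ Icc 1 ⌊3 * N1 / (p : ℝ) ^ m⌋₊ then 3 * N2 * Bg ^ 2 else 0 := by
          intro h hh
          rw [mem_filter, mem_Icc] at hh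
          split_ifs with hif
          · exact hTle h
          · have hz : T h = 0 := by
              by_contra hne
              have h3 := hhN h hne
              refine hif (mem_Icc.2 ⟨hh.1.1, Nat.le_floor ?_⟩)
              rw [le_div_iff₀ hPm0]
              linarith
            rw [hz, norm_zero]
        refine (sum_le_sum h1).trans ?_
        have h2 : ∑ h ∈ (Icc 1 (M / p ^ m)).filter (fun h => ¬ p ∣ h),
            (if h ∈ Icc 1 ⌊3 * N1 / (p : ℝ) ^ m⌋₊ then 3 * N2 * Bg ^ 2 else 0) ≤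
            ∑ h ∈ Icc 1 ⌊3 * N1 / (p : ℝ) ^ m⌋₊, 3 * N2 * Bg ^ 2 := by
          rw [← sum_filter]
          refine sum_le_sum_of_subset_of_nonneg ?_ (fun _ _ _ => by positivity)
          intro n hn
          exact (mem_filter.1 hn).2
        refine h2.trans ?_
        rw [sum_const, Nat.card_Icc, nsmul_eq_mul, Nat.add_sub_cancel]
        exact mul_le_mul_of_nonneg_right (Nat.floor_le (by positivity)) (by positivity)
      refine hsum.trans ?_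
      -- `√N1 √N2 / p^m` is small
      have g1' : √N1 * √N2 ≤ 3 * q ^ (1 / 4 + 5 / 2 * κ) := by
        rw [← Real.sqrt_mul hN1'.le]
        apply Real.sqrt_le_iff.2
        refine ⟨by positivity, ?_⟩
        have e1 : (3 * q ^ (1 / 4 + 5 / 2 * κ)) ^ 2 = 9 * (q ^ (1 / 2 + 3 * κ) * q ^ (2 * κ)) := by
          rw [mul_pow, sq (q ^ (1 / 4 + 5 / 2 * κ)), qadd, qadd]
          norm_num
          congr 1
          ring
        rw [e1]
        have e2 : N2 ≤ 5 * q ^ (2 * κ) := by linarith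
        have e3 := mul_le_mul f3 e2 hN2'.le (qpos _).le
        have e4 : 0 < q ^ (1 / 2 + 3 * κ) * q ^ (2 * κ) := by positivity
        linarith
      have g2' : q ^ (19 / 58 : ℝ) ≤ (p : ℝ) ^ m := by
        rw [hq, ← Real.rpow_natCast, ← Real.rpow_mul hp0.le, ← Real.rpow_natCast]
        apply Real.rpow_le_rpow_of_exponent_le hp1.le
        linarith
      have g3' : √N1 * √N2 / (p : ℝ) ^ m ≤ 3 * q ^ (-(η₁ / 2)) := by
        rw [div_le_iff₀ hPm0]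
        have e1 : q ^ (1 / 4 + 5 / 2 * κ) ≤ q ^ (-(η₁ / 2)) * q ^ (19 / 58 : ℝ) := by
          rw [qadd]
          apply qmono
          linarith
        have e2 : q ^ (-(η₁ / 2)) * q ^ (19 / 58 : ℝ) ≤ q ^ (-(η₁ / 2)) * (p : ℝ) ^ m :=
          mul_le_mul_of_nonneg_left g2' (qpos _).le
        linarith
      have g4' : (3 * N1 / (p : ℝ) ^ m) * (3 * N2 * Bg ^ 2) =
          9 * Bg ^ 2 * (√N1 * √N2) * (√N1 * √N2 / (p : ℝ) ^ m) := by
        have e1 := Real.mul_self_sqrt hN1'.le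
        have e2 := Real.mul_self_sqrt hN2'.le
        have e3 : 9 * Bg ^ 2 * (√N1 * √N2) * (√N1 * √N2 / (p : ℝ) ^ m) =
          9 * Bg ^ 2 * (√N1 * √N1) * (√N2 * √N2) / (p : ℝ) ^ m := by ring
        rw [e3, e1, e2]
        ring
      rw [g4']
      have g5' : 9 * Bg ^ 2 * (√N1 * √N2) * (√N1 * √N2 / (p : ℝ) ^ m) ≤
          9 * Bg ^ 2 * (√N1 * √N2) * (3 * q ^ (-(η₁ / 2))) :=
        mul_le_mul_of_nonneg_left g3' (by positivity)
      refine g5'.trans ?_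
      have g6' : 0 ≤ Bg ^ 2 * (√N1 * √N2) * q ^ (-(η₁ / 2)) := by positivity
      nlinarith
    · -- the long case
      obtain ⟨c, hc1, hc2⟩ := exists_cc l1 l2 hl1 hl2 ((p : ℤ) ^ m)
      have hE1 : 1 ≤ Nat.lcm l1 l2 := Nat.lcm_pos hl1 hl2
      have hpE : ¬ p ∣ Nat.lcm l1 l2 := by
        intro h
        have h1 : p ∣ l1 * l2 := h.trans (Nat.lcm_dvd (Dvd.intro _ rfl) (Dvd.intro_left _ rfl))
        rcases (hp.dvd_mul).1 h1 with h2 | h2
        · exact hpl1 h2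
        · exact hpl2 h2
      obtain ⟨S, hS⟩ : ∃ S : Finset ℤ, S = (((Icc 1 (M / p ^ m)).filter
          (fun h => ¬ p ∣ h)).filter (fun h => T h ≠ 0)).image (fun h : ℕ => (h : ℤ)) := ⟨_, rfl⟩
      have hSsub : S ⊆ (Ico (1 : ℤ) (1 + (⌊4 * N1⌋₊ / p ^ m : ℕ))).filter
          (fun l => ¬ (p : ℤ) ∣ l) := by
        intro l hl
        rw [hS, mem_image] at hl
        obtain ⟨h, hh, rfl⟩ := hl
        rw [mem_filter, mem_filter, mem_Icc] at hh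
        obtain ⟨⟨⟨h1, -⟩, h2⟩, h3⟩ := hh
        rw [mem_filter, mem_Ico]
        refine ⟨⟨by exact_mod_cast h1, ?_⟩, fun h' => h2 (by exact_mod_cast h')⟩
        have h4 := hhN h h3
        have h5 : h ≤ ⌊4 * N1⌋₊ / p ^ m := by
          rw [Nat.le_div_iff_mul_le hPm]
          apply Nat.le_floor
          push_cast
          linarith
        have h6 : (h : ℤ) ≤ (⌊4 * N1⌋₊ / p ^ m : ℕ) := by exact_mod_cast h5
        linarith
      have hoff' := hoff (Nat.lcm l1 l2) c hE1 hpE hc1 g1 g2 Bg Bg hg1 hg2 hg2s N1 N2 hN1' hcase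
        f1 (f3.trans (qmono _ _ (by linarith))) S hSsub
      have hsum : ∑ h ∈ (Icc 1 (M / p ^ m)).filter (fun h => ¬ p ∣ h), ‖T h‖ =
          ∑ l ∈ S, ‖∑ x ∈ Icc 1 ⌊4 * (N2 / (Nat.lcm l1 l2 : ℕ))⌋₊,
          FF χ ((p : ℤ) ^ m * l) (c l + (Nat.lcm l1 l2 : ℕ) * x) *
          (g1 (((c l + (Nat.lcm l1 l2 : ℕ) * x + (p : ℤ) ^ m * l : ℤ) : ℝ) / N1) *
            (starRingEnd ℂ) (g2 (((c l + (Nat.lcm l1 l2 : ℕ) * x : ℤ) : ℝ) / N2)))‖ := by
        rw [hS, sum_image (fun x _ y _ h => by exact_mod_cast h)]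
        have h1 : ∑ h ∈ (Icc 1 (M / p ^ m)).filter (fun h => ¬ p ∣ h), ‖T h‖ =
            ∑ h ∈ ((Icc 1 (M / p ^ m)).filter (fun h => ¬ p ∣ h)).filter (fun h => T h ≠ 0),
              ‖T h‖ := by
          symm
          apply sum_filter_of_ne
          intro h _ hne h'
          exact hne (by rw [h', norm_zero])
        rw [h1]
        refine sum_congr rfl fun h hh => ?_
        have hTh : T h ≠ 0 := (mem_filter.1 hh).2
        congr 1
        obtain ⟨n, hn1, ⟨hn2, hn3⟩, -, -⟩ := hterm h hTh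
        have hsol : ∃ n : ℤ, (l2 : ℤ) ∣ n ∧ (l1 : ℤ) ∣ n + (p : ℤ) ^ m * (h : ℤ) :=
          ⟨n, by exact_mod_cast hn2, by exact_mod_cast hn3⟩
        have h3 := reindex (fun n : ℤ => FF χ ((p : ℤ) ^ m * (h : ℤ)) n *
          (g1 (((n + (p : ℤ) ^ m * (h : ℤ) : ℤ) : ℝ) / N1) *
            (starRingEnd ℂ) (g2 ((n : ℝ) / N2)))) (M := M) hE1 (hc2 h hsol) (hc1 h).1 (hc1 h).2
            hcase (by
              intro n hn hne
              have hn0 : (0 : ℝ) < n := by exact_mod_cast hn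
              have hne' : g2 ((n : ℝ) / N2) ≠ 0 := by
                intro h'
                apply hne
                simp only [Int.cast_natCast]
                rw [h', map_zero, mul_zero, mul_zero]
              obtain ⟨e1, e2, -, -⟩ := hs2 n hn0 hne'
              exact ⟨e1, e2, hnM n hn hne'⟩)
        refine Eq.trans ?_ h3
        rw [hT]
        simp only
        refine sum_congr ?_ ?_
        · ext n
          rw [mem_filter, mem_filter]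
          have e1 : l2 ∣ n ↔ (l2 : ℤ) ∣ (n : ℤ) := Int.natCast_dvd_natCast.symm
          have e2 : l1 ∣ n + p ^ m * h ↔ (l1 : ℤ) ∣ (n : ℤ) + (p : ℤ) ^ m * (h : ℤ) := by
            rw [← Int.natCast_dvd_natCast]
            push_cast
            rfl
          rw [e1, e2]
        · intro n _
          push_cast
          rfl
      rw [hsum]
      refine hoff'.trans ?_
      have k1 : √N1 ≤ 2 * q ^ κ * √N2 := by
        apply Real.sqrt_le_iff.2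
        refine ⟨by positivity, ?_⟩
        rw [mul_pow, mul_pow, Real.sq_sqrt hN2'.le, sq (q ^ κ), qadd]
        have : κ + κ = 2 * κ := by ring
        rw [this]
        linarith
      have k2 : N1 ≤ 2 * q ^ κ * (√N1 * √N2) := by
        have e1 := Real.mul_self_sqrt hN1'.le
        have e2 := mul_le_mul_of_nonneg_left k1 hsN1.le
        nlinarith
      have k3 : q ^ κ * q ^ (-η₁) ≤ q ^ (-(η₁ / 2)) := by
        rw [qadd]
        apply qmono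
        linarith
      have k4 : C₀ * (Bg * Bg) * N1 * q ^ (-η₁) ≤
          C₀ * (Bg * Bg) * (2 * q ^ κ * (√N1 * √N2)) * q ^ (-η₁) := by
        apply mul_le_mul_of_nonneg_right _ (qpos _).le
        exact mul_le_mul_of_nonneg_left k2 (by positivity)
      refine k4.trans ?_
      have k5 : C₀ * (Bg * Bg) * (2 * q ^ κ * (√N1 * √N2)) * q ^ (-η₁) =
          2 * C₀ * Bg ^ 2 * (√N1 * √N2) * (q ^ κ * q ^ (-η₁)) := by ring
      rw [k5]
      have k6 : 2 * C₀ * Bg ^ 2 * (√N1 * √N2) * (q ^ κ * q ^ (-η₁)) ≤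
          2 * C₀ * Bg ^ 2 * (√N1 * √N2) * q ^ (-(η₁ / 2)) :=
        mul_le_mul_of_nonneg_left k3 (by positivity)
      refine k6.trans ?_
      have k7 : 0 ≤ Bg ^ 2 * (√N1 * √N2) * q ^ (-(η₁ / 2)) := by positivity
      nlinarith
  rw [hT] at hgoal
  exact hgoal

end Pool.Agent.Y678.R10
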