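import Pool.Agent.Y678.R10.Wt

/-!
Project R10, part OFM: residue classes and the bound for a pair of dyadic weights.
-/

set_option autoImplicit false

namespace Pool.Agent.Y678.R10

open Finset
open Pool.Agent.Y766 (Good)
open Pool.Agent.Y766.R3 (FF)

lemma cls {l1 l2 : ℕ} {P n₀ : ℤ} (h2 : (l2 : ℤ) ∣ n₀) (h1 : (l1 : ℤ) ∣ n₀ + P) (n : ℤ) :
    ((l2 : ℤ) ∣ n ∧ (l1 : ℤ) ∣ n + P) ↔ ((Nat.lcm l1 l2 : ℕ) : ℤ) ∣ n - n₀ := by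
  constructor
  · rintro ⟨a, b⟩
    have a' : (l2 : ℤ) ∣ n - n₀ := dvd_sub a h2
    have b' : (l1 : ℤ) ∣ n - n₀ := by
      have := dvd_sub b h1
      rwa [add_sub_add_right_eq_sub] at this
    rw [Int.natCast_dvd] at a' b' ⊢
    exact Nat.lcm_dvd b' a'
  · intro h
    have a' : (l2 : ℤ) ∣ n - n₀ :=
      (Int.natCast_dvd_natCast.2 (Nat.dvd_lcm_right l1 l2)).trans h
    have b' : (l1 : ℤ) ∣ n - n₀ :=
      (Int.natCast_dvd_natCast.2 (Nat.dvd_lcm_left l1 l2)).trans h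
    constructor
    · have := dvd_add a' h2
      rwa [sub_add_cancel] at this
    · have := dvd_add b' h1
      have e : n - n₀ + (n₀ + P) = n + P := by ring
      rwa [e] at this

lemma reindex (F : ℤ → ℂ) {M l1 l2 E : ℕ} {P c : ℤ} (hE1 : 1 ≤ E)
    (hcl : ∀ n : ℤ, ((l2 : ℤ) ∣ n ∧ (l1 : ℤ) ∣ n + P) ↔ (E : ℤ) ∣ n - c) (hc0 : 0 ≤ c)
    (hcE : c < E) {N2 : ℝ} (hN2 : 5 * (E : ℝ) ≤ N2)
    (hF : ∀ n : ℕ, 1 ≤ n → F n ≠ 0 → 6 / 5 * N2 ≤ n ∧ (n : ℝ) ≤ 3 * N2 ∧ n ≤ M) :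
    ∑ n ∈ (Icc 1 M).filter (fun n : ℕ => (l2 : ℤ) ∣ (n : ℤ) ∧ (l1 : ℤ) ∣ (n : ℤ) + P), F n =
      ∑ x ∈ Icc 1 ⌊4 * (N2 / E)⌋₊, F (c + E * x) := by
  have hE0 : (0 : ℝ) < E := by exact_mod_cast hE1
  symm
  have hpos : ∀ x : ℕ, 1 ≤ x → 1 ≤ c + E * x := by
    intro x hx
    have : (1 : ℤ) * 1 ≤ E * x := mul_le_mul (by exact_mod_cast hE1) (by exact_mod_cast hx)
      (by norm_num) (by positivity)
    linarith
  have hcast : ∀ x : ℕ, 1 ≤ x → (((c + E * x).toNat : ℕ) : ℤ) = c + E * x := by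
    intro x hx
    rw [Int.toNat_of_nonneg (by linarith [hpos x hx])]
  refine sum_bij_ne_zero (fun x _ _ => (c + E * x).toNat) ?_ ?_ ?_ ?_
  · intro x hx hne
    have hx1 := (mem_Icc.1 hx).1
    have h1 : 1 ≤ (c + E * x).toNat := by
      have := hpos x hx1
      omega
    rw [← hcast x hx1] at hne
    obtain ⟨-, -, h4⟩ := hF _ h1 hne
    rw [mem_filter, mem_Icc]
    refine ⟨⟨h1, h4⟩, ?_⟩
    rw [hcast x hx1]
    rw [hcl]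
    exact ⟨x, by ring⟩
  · intro x hx _ y hy _ hxy
    have hx1 := (mem_Icc.1 hx).1
    have hy1 := (mem_Icc.1 hy).1
    have h1 : c + E * x = c + E * y := by
      rw [← hcast x hx1, ← hcast y hy1, hxy]
    have h2 : (E : ℤ) * x = E * y := by linarith
    have h3 : (E : ℤ) ≠ 0 := by
      have : (1 : ℤ) ≤ E := by exact_mod_cast hE1
      linarith
    have h4 := mul_left_cancel₀ h3 h2
    exact_mod_cast h4
  · intro n hn hne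
    rw [mem_filter, mem_Icc] at hn
    obtain ⟨⟨hn1, hnM⟩, hnc⟩ := hn
    rw [hcl] at hnc
    obtain ⟨x, hx⟩ := hnc
    obtain ⟨h1, h2, -⟩ := hF n hn1 hne
    have hxn : (n : ℤ) = c + E * x := by linarith
    have hxr : (n : ℝ) = (c : ℝ) + E * x := by exact_mod_cast hxn
    have hcr : (c : ℝ) < E := by exact_mod_cast hcE
    have hcr0 : (0 : ℝ) ≤ c := by exact_mod_cast hc0
    have hx0 : (0 : ℝ) < x := by
      by_contra h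
      push Not at h
      have : (E : ℝ) * x ≤ 0 := mul_nonpos_of_nonneg_of_nonpos hE0.le h
      linarith
    have hx0' : 0 < x := by exact_mod_cast hx0
    obtain ⟨y, rfl⟩ : ∃ y : ℕ, x = y := ⟨x.toNat, by rw [Int.toNat_of_nonneg hx0'.le]⟩
    have hy1 : 1 ≤ y := by omega
    refine ⟨y, ?_, ?_, ?_⟩
    · rw [mem_Icc]
      refine ⟨hy1, Nat.le_floor ?_⟩
      rw [← mul_div_assoc, le_div_iff₀ hE0]
      push_cast at hxr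
      linarith
    · rw [← hxn]
      exact hne
    · rw [← hxn, Int.toNat_natCast]
  · intro x hx _
    rw [hcast x (mem_Icc.1 hx).1]

/-- the residue classes -/
lemma exists_cc (l1 l2 : ℕ) (hl1 : 1 ≤ l1) (hl2 : 1 ≤ l2) (d : ℤ) : ∃ c : ℤ → ℤ,
    (∀ l, 0 ≤ c l ∧ c l < (Nat.lcm l1 l2 : ℕ)) ∧
    ∀ l, (∃ n : ℤ, (l2 : ℤ) ∣ n ∧ (l1 : ℤ) ∣ n + d * l) →
      ∀ n : ℤ, ((l2 : ℤ) ∣ n ∧ (l1 : ℤ) ∣ n + d * l) ↔ ((Nat.lcm l1 l2 : ℕ) : ℤ) ∣ n - c l := by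
  have hE : 1 ≤ Nat.lcm l1 l2 := Nat.lcm_pos hl1 hl2
  have hE0 : ((Nat.lcm l1 l2 : ℕ) : ℤ) ≠ 0 := by
    have : (1 : ℤ) ≤ (Nat.lcm l1 l2 : ℕ) := by exact_mod_cast hE
    linarith
  have hEp : (0 : ℤ) < (Nat.lcm l1 l2 : ℕ) := by exact_mod_cast hE
  have key : ∀ l : ℤ, ∃ c : ℤ, (0 ≤ c ∧ c < (Nat.lcm l1 l2 : ℕ)) ∧
      ((∃ n : ℤ, (l2 : ℤ) ∣ n ∧ (l1 : ℤ) ∣ n + d * l) →
      ∀ n : ℤ, ((l2 : ℤ) ∣ n ∧ (l1 : ℤ) ∣ n + d * l) ↔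
        ((Nat.lcm l1 l2 : ℕ) : ℤ) ∣ n - c) := by
    intro l
    by_cases h : ∃ n : ℤ, (l2 : ℤ) ∣ n ∧ (l1 : ℤ) ∣ n + d * l
    · obtain ⟨n₀, h2, h1⟩ := h
      refine ⟨n₀ % (Nat.lcm l1 l2 : ℕ), ⟨Int.emod_nonneg _ hE0, Int.emod_lt_of_pos _ hEp⟩,
        fun _ n => ?_⟩
      rw [cls h2 h1]
      have e : n - n₀ % (Nat.lcm l1 l2 : ℕ) = (n - n₀) + (Nat.lcm l1 l2 : ℕ) *
          (n₀ / (Nat.lcm l1 l2 : ℕ)) := by
        have := Int.emod_add_mul_ediv n₀ (Nat.lcm l1 l2 : ℕ)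
        linarith
      rw [e]
      exact (dvd_add_left (Dvd.intro _ rfl)).symm
    · exact ⟨0, ⟨le_rfl, hEp⟩, fun h' => absurd h' h⟩
  choose c hc1 hc2 using key
  exact ⟨c, hc1, hc2⟩

lemma FF_le {q : ℕ} (χ : DirichletCharacter ℂ q) (P n : ℤ) : ‖FF χ P n‖ ≤ 1 := by
  unfold FF
  rw [norm_mul, RCLike.norm_conj]
  calc _ ≤ (1 : ℝ) * 1 := mul_le_mul (DirichletCharacter.norm_le_one _ _)
        (DirichletCharacter.norm_le_one _ _) (norm_nonneg _) (by norm_num)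
    _ = 1 := by norm_num

end Pool.Agent.Y678.R10
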