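import Pool.Agent.Y766.R10.Stm

/-!
Project R10, part OFM: a partition of unity and the weights.
-/

set_option autoImplicit false

namespace Pool.Agent.Y678.R10

open Finset
open Pool.Agent.H442R2 Pool.Agent.H442R2.TSM Pool.Agent.H442R2.TSM.TaskTA
open Pool.Agent.Y766 Pool.Agent.Y766.R10

/-- the cutoff -/
noncomputable def Cq (x : ℝ) : ℝ := Real.smoothTransition (5 - 10 * x / 3)

/-- the bump -/
noncomputable def Bq (x : ℝ) : ℝ := Cq (x / 2) - Cq x

lemma Cq_one {x : ℝ} (h : x ≤ 6 / 5) : Cq x = 1 :=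
  Real.smoothTransition.one_of_one_le (by linarith)

lemma Cq_zero {x : ℝ} (h : 3 / 2 ≤ x) : Cq x = 0 :=
  Real.smoothTransition.zero_of_nonpos (by linarith)

lemma Bq_supp {x : ℝ} (h : x ∉ Set.Icc (6 / 5 : ℝ) 3) : Bq x = 0 := by
  unfold Bq
  rcases lt_or_ge x (6 / 5) with h1 | h1
  · rw [Cq_one h1.le, Cq_one (by linarith), sub_self]
  · have h2 : 3 < x := by
      by_contra h2
      push Not at h2
      exact h ⟨h1, h2⟩
    rw [Cq_zero (by linarith), Cq_zero (by linarith), sub_self]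

lemma Cq_smooth : ContDiff ℝ ((⊤ : ℕ∞) : WithTop ℕ∞) Cq := by
  unfold Cq
  exact Real.smoothTransition.contDiff.comp (by fun_prop)

lemma Bq_smooth : ContDiff ℝ ((⊤ : ℕ∞) : WithTop ℕ∞) Bq := by
  unfold Bq
  exact (Cq_smooth.comp (by fun_prop)).sub Cq_smooth

lemma Bq_tel (x : ℝ) (I : ℕ) :
    ∑ i ∈ range (I + 1), Bq (x / (2 ^ i / 2)) = Cq (x / 2 ^ I) - Cq (2 * x) := by
  induction I with
  | zero =>
    rw [zero_add, sum_range_one, pow_zero, div_one]
    unfold Bq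
    have e0 : x / (1 / 2) = 2 * x := by ring
    have e1 : 2 * x / 2 = x := by ring
    rw [e0, e1]
  | succ I ih =>
    rw [sum_range_succ, ih]
    unfold Bq
    have e1 : x / (2 ^ (I + 1) / 2) = x / 2 ^ I := by
      rw [pow_succ]
      congr 1
      ring
    have e2 : x / 2 ^ I / 2 = x / 2 ^ (I + 1) := by
      rw [pow_succ, div_div]
    rw [e1, e2]
    ring

/-- the base test function -/
noncomputable def ps (u : ℝ) : ℂ := ((u ^ (-(1 / 2) : ℝ) * Bq u : ℝ) : ℂ)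

lemma ps_supp {x : ℝ} (h : x ∉ Set.Icc (6 / 5 : ℝ) 3) : ps x = 0 := by
  unfold ps
  rw [Bq_supp h, mul_zero, Complex.ofReal_zero]

lemma tst_ps : Tst ps := by
  have hB : Tst (fun u => ((Bq u : ℝ) : ℂ)) := by
    refine ⟨Complex.ofRealCLM.contDiff.comp Bq_smooth, fun u hu => ?_⟩
    rw [Bq_supp (fun h => hu ⟨by linarith [h.1], by linarith [h.2]⟩), Complex.ofReal_zero]
  have := tst_mul (φ := fun u => (((u ^ (-(1 / 2) : ℝ) : ℝ)) : ℂ)) hB (fun u hu =>
    Complex.ofRealCLM.contDiff.contDiffAt.comp u (Real.contDiffAt_rpow_const_of_ne hu.ne'))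
  have e : ps = fun u => ((Bq u : ℝ) : ℂ) * (((u ^ (-(1 / 2) : ℝ) : ℝ)) : ℂ) := by
    funext u
    unfold ps
    push_cast
    ring
  rw [e]
  exact this

/-- multiplication by a smooth function of the logarithm -/
lemma good_mul {f : ℝ → ℂ} {Ct : ℝ} (hf : Good Ct f) {B : ℝ} {G : ℝ → ℂ} (hG : WG B G) {L c : ℝ}
    (hL : 1 ≤ L) : Good (5 * Ct * B) (fun u => f u * G ((Real.log u + c) / L)) := by
  have hCt : 0 ≤ Ct := (norm_nonneg _).trans (hf.b0 0)
  have hB : 0 ≤ B := (norm_nonneg _).trans (hG.b0 0)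
  have hL0 : 0 < L := by linarith
  have hs : ∀ u : ℝ, 0 < u → HasDerivAt (fun u => (Real.log u + c) / L) (1 / (L * u)) u := by
    intro u hu
    have h1 := ((Real.hasDerivAt_log hu.ne').add_const c).div_const L
    refine h1.congr_deriv ?_
    field_simp
  have hGd : ∀ v, HasDerivAt G (deriv G v) v := fun v =>
    (hG.smooth.differentiable (by simp) v).hasDerivAt
  have hG1 : ContDiff ℝ ((⊤ : ℕ∞) : WithTop ℕ∞) (deriv G) := (contDiff_infty_iff_deriv.mp hG.smooth).2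
  have hGdd : ∀ v, HasDerivAt (deriv G) (deriv (deriv G) v) v := fun v =>
    (hG1.differentiable (by simp) v).hasDerivAt
  -- first derivative of the second factor
  have hH : ∀ u : ℝ, 0 < u → HasDerivAt (fun u => G ((Real.log u + c) / L))
      (((1 / (L * u) : ℝ) : ℂ) * deriv G ((Real.log u + c) / L)) u := by
    intro u hu
    have h1 := (hGd ((Real.log u + c) / L)).scomp u (hs u hu)
    refine h1.congr_deriv ?_
    rw [Complex.real_smul]
  have hq : ∀ u : ℝ, 0 < u → HasDerivAt (fun u : ℝ => ((1 / (L * u) : ℝ) : ℂ))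
      ((-(1 / (L * u ^ 2)) : ℝ) : ℂ) u := by
    intro u hu
    have h1 : HasDerivAt (fun u : ℝ => 1 / (L * u)) (-(1 / (L * u ^ 2))) u := by
      have h2 := (hasDerivAt_inv hu.ne').const_mul (1 / L)
      refine (h2.congr_of_eventuallyEq ?_).congr_deriv ?_
      · filter_upwards [lt_mem_nhds hu] with v hv
        field_simp
      · field_simp
    exact h1.ofReal_comp
  have hH1 : ∀ u : ℝ, 0 < u → HasDerivAt
      (fun u => ((1 / (L * u) : ℝ) : ℂ) * deriv G ((Real.log u + c) / L))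
      (((-(1 / (L * u ^ 2)) : ℝ) : ℂ) * deriv G ((Real.log u + c) / L) +
        ((1 / (L * u) : ℝ) : ℂ) * (((1 / (L * u) : ℝ) : ℂ) *
          deriv (deriv G) ((Real.log u + c) / L))) u := by
    intro u hu
    have h1 := (hGdd ((Real.log u + c) / L)).scomp u (hs u hu)
    have h2 := (hq u hu).mul h1
    refine h2.congr_deriv ?_
    rw [Complex.real_smul]
    rfl
  have htst : Tst (fun u => f u * G ((Real.log u + c) / L)) := by
    apply tst_mul hf.tst
    intro u hu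
    have h1 : ContDiffAt ℝ ((⊤ : ℕ∞) : WithTop ℕ∞) (fun u : ℝ => (Real.log u + c) / L) u :=
      ((Real.contDiffAt_log.mpr hu.ne').add contDiffAt_const).div_const L
    exact hG.smooth.contDiffAt.comp u h1
  have hfd := tst_hasDeriv hf.tst
  have hfdd := tst_hasDeriv (tst_deriv hf.tst)
  have e1 : ∀ u : ℝ, 0 < u → deriv (fun u => f u * G ((Real.log u + c) / L)) u =
      deriv f u * G ((Real.log u + c) / L) +
        f u * (((1 / (L * u) : ℝ) : ℂ) * deriv G ((Real.log u + c) / L)) := by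
    intro u hu
    exact ((hfd u).mul (hH u hu)).deriv
  have e2 : ∀ u : ℝ, 0 < u → deriv (deriv (fun u => f u * G ((Real.log u + c) / L))) u =
      (deriv (deriv f) u * G ((Real.log u + c) / L) +
        deriv f u * (((1 / (L * u) : ℝ) : ℂ) * deriv G ((Real.log u + c) / L))) +
      (deriv f u * (((1 / (L * u) : ℝ) : ℂ) * deriv G ((Real.log u + c) / L)) +
        f u * (((-(1 / (L * u ^ 2)) : ℝ) : ℂ) * deriv G ((Real.log u + c) / L) +
        ((1 / (L * u) : ℝ) : ℂ) * (((1 / (L * u) : ℝ) : ℂ) *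
          deriv (deriv G) ((Real.log u + c) / L)))) := by
    intro u hu
    have h1 : deriv (fun u => f u * G ((Real.log u + c) / L)) =ᶠ[nhds u] fun u =>
        deriv f u * G ((Real.log u + c) / L) +
        f u * (((1 / (L * u) : ℝ) : ℂ) * deriv G ((Real.log u + c) / L)) := by
      filter_upwards [lt_mem_nhds hu] with v hv
      exact e1 v hv
    rw [h1.deriv_eq]
    exact (((hfdd u).mul (hH u hu)).add ((hfd u).mul (hH1 u hu))).deriv
  have k1 : ∀ u : ℝ, 1 ≤ u → ‖((1 / (L * u) : ℝ) : ℂ)‖ ≤ 1 := by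
    intro u hu
    have h0 : 1 ≤ L * u := by nlinarith
    rw [Complex.norm_real, Real.norm_of_nonneg (by positivity), div_le_one (by linarith)]
    exact h0
  have k2 : ∀ u : ℝ, 1 ≤ u → ‖((-(1 / (L * u ^ 2)) : ℝ) : ℂ)‖ ≤ 1 := by
    intro u hu
    have h0 : 1 ≤ L * u ^ 2 := by nlinarith
    rw [Complex.norm_real, norm_neg, Real.norm_of_nonneg (by positivity),
      div_le_one (by linarith)]
    exact h0
  have m1 : ∀ (x y : ℂ) (X Y : ℝ), ‖x‖ ≤ X → ‖y‖ ≤ Y → ‖x * y‖ ≤ X * Y := by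
    intro x y X Y hx hy
    rw [norm_mul]
    exact mul_le_mul hx hy (norm_nonneg _) ((norm_nonneg _).trans hx)
  have hCB : 0 ≤ Ct * B := mul_nonneg hCt hB
  refine ⟨htst, fun u => ?_, fun u => ?_, fun u => ?_⟩
  · have h1 := m1 _ _ _ _ (hf.b0 u) (hG.b0 ((Real.log u + c) / L))
    refine h1.trans ?_
    linarith
  · by_cases hu : u ∈ Set.Icc (1 : ℝ) 4
    · rw [e1 u (by linarith [hu.1])]
      have a1 := m1 _ _ _ _ (hf.b1 u) (hG.b0 ((Real.log u + c) / L))
      have a2 := m1 _ _ _ _ (k1 u hu.1) (hG.b1 ((Real.log u + c) / L))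
      have a3 := m1 _ _ _ _ (hf.b0 u) a2
      refine (norm_add_le _ _).trans ((add_le_add a1 a3).trans ?_)
      linarith
    · rw [(tst_deriv htst).supp u hu, norm_zero]
      linarith
  · by_cases hu : u ∈ Set.Icc (1 : ℝ) 4
    · rw [e2 u (by linarith [hu.1])]
      have a1 := m1 _ _ _ _ (hf.b2 u) (hG.b0 ((Real.log u + c) / L))
      have a2 := m1 _ _ _ _ (k1 u hu.1) (hG.b1 ((Real.log u + c) / L))
      have a3 := m1 _ _ _ _ (hf.b1 u) a2
      have a4 := m1 _ _ _ _ (k2 u hu.1) (hG.b1 ((Real.log u + c) / L))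
      have a5 := m1 _ _ _ _ (k1 u hu.1) (hG.b2 ((Real.log u + c) / L))
      have a6 := m1 _ _ _ _ (k1 u hu.1) a5
      have a7 := m1 _ _ _ _ (hf.b0 u) ((norm_add_le _ _).trans (add_le_add a4 a6))
      refine (norm_add_le _ _).trans ((add_le_add ((norm_add_le _ _).trans (add_le_add a1 a3))
        ((norm_add_le _ _).trans (add_le_add a3 a7))).trans ?_)
      linarith
    · rw [(tst_deriv (tst_deriv htst)).supp u hu, norm_zero]
      linarith

/-- the weight of a dyadic piece -/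
noncomputable def gw (q t : ℝ) (G : ℝ → ℂ) (l : ℕ) (N x : ℝ) : ℂ :=
  ps x * EE t 0 0 x * G ((Real.log x + (Real.log N - Real.log l)) / Real.log q)

lemma ps_EE {x : ℝ} (hx : 0 < x) (t : ℝ) :
    ps x * EE t 0 0 x = (x : ℂ) ^ (-(1 / 2 + (t : ℂ) * Complex.I)) * (Bq x : ℂ) := by
  have hx' : (x : ℂ) ≠ 0 := by exact_mod_cast hx.ne'
  have h1 : ps x = (x : ℂ) ^ (-(1 / 2) : ℂ) * (Bq x : ℂ) := by
    unfold ps
    rw [Complex.ofReal_mul, Complex.ofReal_cpow hx.le]
    push_cast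
    rfl
  have h2 : EE t 0 0 x = (x : ℂ) ^ (-((t : ℂ) * Complex.I)) := by
    unfold EE
    rw [Complex.cpow_def_of_ne_zero hx', ← Complex.ofReal_log hx.le]
    congr 1
    push_cast
    ring
  rw [h1, h2, neg_add, Complex.cpow_add _ _ hx']
  ring

lemma ww_eq (q t : ℝ) (G : ℝ → ℂ) (l : ℕ) {n I : ℕ} (hn : 1 ≤ n) (hI : (n : ℝ) ≤ 6 / 5 * 2 ^ I) :
    ww q t G l n = ∑ i ∈ range (I + 1), (((2 : ℝ) ^ i / 2 : ℝ) : ℂ) ^
      (-(1 / 2 + (t : ℂ) * Complex.I)) * gw q t G l (2 ^ i / 2) (n / (2 ^ i / 2)) := by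
  have hn0 : (0 : ℝ) < n := by exact_mod_cast hn
  have hn1 : (1 : ℝ) ≤ n := by exact_mod_cast hn
  have h1 : ∀ i ∈ range (I + 1), (((2 : ℝ) ^ i / 2 : ℝ) : ℂ) ^
      (-(1 / 2 + (t : ℂ) * Complex.I)) * gw q t G l (2 ^ i / 2) (n / (2 ^ i / 2)) =
      ww q t G l n * (Bq (n / (2 ^ i / 2)) : ℂ) := by
    intro i _
    have hN : (0 : ℝ) < 2 ^ i / 2 := by positivity
    obtain ⟨N, hNN⟩ : ∃ N : ℝ, N = 2 ^ i / 2 := ⟨_, rfl⟩
    rw [← hNN] at hN ⊢
    have hx : 0 < (n : ℝ) / N := by positivity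
    unfold gw ww
    rw [ps_EE hx]
    have e1 : (n : ℂ) = ((N : ℝ) : ℂ) * (((n : ℝ) / N : ℝ) : ℂ) := by
      rw [← Complex.ofReal_mul, mul_div_cancel₀ _ hN.ne']
      push_cast
      rfl
    have e2 : (n : ℂ) ^ (-(1 / 2 + (t : ℂ) * Complex.I)) =
        ((N : ℝ) : ℂ) ^ (-(1 / 2 + (t : ℂ) * Complex.I)) *
        (((n : ℝ) / N : ℝ) : ℂ) ^ (-(1 / 2 + (t : ℂ) * Complex.I)) := by
      rw [e1, Complex.mul_cpow_ofReal_nonneg hN.le hx.le]
    have e3 : Real.log ((n : ℝ) / N) + (Real.log N - Real.log l) = Real.log n - Real.log l := by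
      rw [Real.log_div hn0.ne' hN.ne']
      ring
    rw [e2, e3]
    ring
  rw [sum_congr rfl h1, ← mul_sum, ← Complex.ofReal_sum, Bq_tel, Cq_one, Cq_zero, sub_zero,
    Complex.ofReal_one, mul_one]
  · linarith
  · rw [div_le_iff₀ (by positivity)]
    exact hI

lemma gw_supp {q t : ℝ} (hq : 1 < q) {G : ℝ → ℂ} {a κ : ℝ}
    (hG : ∀ v, v ∉ Set.Icc a (a + κ) → G v = 0) {l : ℕ} (hl : 1 ≤ l) {N : ℝ} (hN : 0 < N)
    {k : ℝ} (hk : 0 < k) (h : gw q t G l N (k / N) ≠ 0) :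
    6 / 5 * N ≤ k ∧ k ≤ 3 * N ∧ l * q ^ a ≤ k ∧ k ≤ l * q ^ (a + κ) := by
  have hL : 0 < Real.log q := Real.log_pos hq
  have hl0 : (0 : ℝ) < l := by exact_mod_cast hl
  have hq0 : 0 < q := by linarith
  unfold gw at h
  have h1 : ps (k / N) ≠ 0 := fun h' => h (by rw [h', zero_mul, zero_mul])
  have h2 : k / N ∈ Set.Icc (6 / 5 : ℝ) 3 := by
    by_contra h'
    exact h1 (ps_supp h')
  have h3 : (Real.log (k / N) + (Real.log N - Real.log l)) / Real.log q ∈ Set.Icc a (a + κ) := by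
    by_contra h'
    exact h (by rw [hG _ h', mul_zero])
  have e3 : Real.log (k / N) + (Real.log N - Real.log l) = Real.log (k / l) := by
    rw [Real.log_div hk.ne' hN.ne', Real.log_div hk.ne' hl0.ne']
    ring
  rw [e3] at h3
  obtain ⟨h4, h5⟩ := h3
  rw [le_div_iff₀ hL] at h4
  rw [div_le_iff₀ hL] at h5
  have hkl : 0 < k / l := by positivity
  refine ⟨?_, ?_, ?_, ?_⟩
  · have := h2.1
    rwa [le_div_iff₀ hN] at this
  · have := h2.2
    rwa [div_le_iff₀ hN] at this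
  · have h6 := Real.exp_le_exp.2 h4
    rw [Real.exp_log hkl, le_div_iff₀ hl0] at h6
    rw [Real.rpow_def_of_pos hq0, mul_comm (Real.log q) a]
    linarith
  · have h6 := Real.exp_le_exp.2 h5
    rw [Real.exp_log hkl, div_le_iff₀ hl0] at h6
    rw [Real.rpow_def_of_pos hq0, mul_comm (Real.log q) (a + κ)]
    linarith

end Pool.Agent.Y678.R10
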